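import Mathlib

/-!
# Project OD (helper82): groups of odd order without invariants act on spaces of even dimension
-/

set_option autoImplicit false
set_option linter.all false

open Matrix

namespace Pool.Agent.Helper82.OD

section mat

variable {N : Type} [Group N] [Fintype N] {ι : Type} [Fintype ι] [DecidableEq ι]

/-- Squaring is a bijection in a finite group of odd order. -/
theorem sq_bij (hN : Odd (Nat.card N)) : Function.Bijective (fun g : N => g ^ 2) := by
  have h : (Nat.card N).Coprime 2 := hN.coprime_two_right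
  exact (powCoprime h).bijective

/-- The average. -/
theorem exists_alt (hN : Odd (Nat.card N)) (G : N →* Matrix ι ι ℚ)
    (hG : ∀ v : ι → ℚ, (∀ g, G g *ᵥ v = v) → v = 0) [Nonempty ι] :
    ∃ A : Matrix ι ι ℚ, A ≠ 0 ∧ Aᵀ = -A ∧ ∀ g, (G g)ᵀ * A * G g = A := by
  by_contra hne
  push Not at hne
  have h1 : ∀ B : Matrix ι ι ℚ, ∑ g, (G g)ᵀ * B * G g = ∑ g, (G g)ᵀ * Bᵀ * G g := by
    intro B
    by_contra hB
    have hA0 : (∑ g, (G g)ᵀ * B * G g) - ∑ g, (G g)ᵀ * Bᵀ * G g ≠ 0 := sub_ne_zero.2 hB
    obtain ⟨h, hh⟩ := hne _ hA0 (by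
      rw [transpose_sub, transpose_sum, transpose_sum, neg_sub]
      simp only [transpose_mul, transpose_transpose, mul_assoc])
    apply hh
    have inv : ∀ C : Matrix ι ι ℚ, (G h)ᵀ * (∑ g, (G g)ᵀ * C * G g) * G h = ∑ g, (G g)ᵀ * C * G g := by
      intro C
      rw [Finset.mul_sum, Finset.sum_mul]
      refine Fintype.sum_equiv (Equiv.mulRight h) _ _ fun g => ?_
      rw [Equiv.coe_mulRight, map_mul, transpose_mul]
      simp only [mul_assoc]
    rw [mul_sub, sub_mul, inv, inv]
  have h2 : ∑ g, (G g).trace ^ 2 = ∑ g, (G g * G g).trace := by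
    have e1 : ∀ i j, ∑ g, G g i i * G g j j = ∑ g, G g i j * G g j i := by
      intro i j
      have h := congrFun (congrFun (h1 (Matrix.single i j 1)) i) j
      rw [Matrix.sum_apply, Matrix.sum_apply, transpose_single] at h
      have a1 : ∀ g : N, ((G g)ᵀ * Matrix.single i j (1 : ℚ) * G g) i j = G g i i * G g j j := by
        intro g
        rw [Matrix.mul_apply, Finset.sum_eq_single j]
        · rw [Matrix.mul_single_apply_same, transpose_apply, mul_one]
        · intro b _ hb
          rw [Matrix.mul_single_apply_of_ne _ _ _ _ _ hb, zero_mul]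
        · intro h
          exact absurd (Finset.mem_univ _) h
      have a2 : ∀ g : N, ((G g)ᵀ * Matrix.single j i (1 : ℚ) * G g) i j = G g j i * G g i j := by
        intro g
        rw [Matrix.mul_apply, Finset.sum_eq_single i]
        · rw [Matrix.mul_single_apply_same, transpose_apply, mul_one]
        · intro b _ hb
          rw [Matrix.mul_single_apply_of_ne _ _ _ _ _ hb, zero_mul]
        · intro h
          exact absurd (Finset.mem_univ _) h
      simp only [a1, a2] at h
      rw [h]
      exact Finset.sum_congr rfl fun g _ => mul_comm _ _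
    calc ∑ g, (G g).trace ^ 2 = ∑ g, ∑ i, ∑ j, G g i i * G g j j := by
          refine Finset.sum_congr rfl fun g _ => ?_
          rw [sq, Matrix.trace, Finset.sum_mul_sum]
          rfl
      _ = ∑ i, ∑ j, ∑ g, G g i i * G g j j := by
          rw [Finset.sum_comm]
          exact Finset.sum_congr rfl fun i _ => Finset.sum_comm
      _ = ∑ i, ∑ j, ∑ g, G g i j * G g j i :=
          Finset.sum_congr rfl fun i _ => Finset.sum_congr rfl fun j _ => e1 i j
      _ = ∑ g, ∑ i, ∑ j, G g i j * G g j i := by
          symm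
          rw [Finset.sum_comm]
          exact Finset.sum_congr rfl fun i _ => Finset.sum_comm
      _ = ∑ g, (G g * G g).trace := by
          refine Finset.sum_congr rfl fun g _ => ?_
          rw [Matrix.trace]
          rfl
  have h3 : ∑ g, (G g * G g).trace = ∑ g, (G g).trace := by
    have e : ∀ g : N, G g * G g = G (g ^ 2) := fun g => by rw [map_pow, sq]
    simp only [e]
    exact Function.Bijective.sum_comp (sq_bij hN) (fun g => (G g).trace)
  have h4 : ∑ g, G g = 0 := by
    have h5 : ∀ v : ι → ℚ, (∑ g, G g) *ᵥ v = 0 := by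
      intro v
      apply hG
      intro h
      rw [mulVec_mulVec, Finset.mul_sum]
      congr 1
      refine Fintype.sum_equiv (Equiv.mulLeft h) _ _ fun g => ?_
      rw [Equiv.coe_mulLeft, map_mul]
    ext i j
    have h6 := congrFun (h5 (Pi.single j 1)) i
    rw [mulVec_single_one] at h6
    exact h6
  have h5 : ∑ g, (G g).trace ^ 2 = 0 := by
    rw [h2, h3, ← Matrix.trace_sum, h4, Matrix.trace_zero]
  have h6 : (G 1).trace ^ 2 = 0 :=
    (Finset.sum_eq_zero_iff_of_nonneg fun g _ => sq_nonneg _).1 h5 1 (Finset.mem_univ _)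
  rw [map_one, Matrix.trace_one] at h6
  have h7 : (Fintype.card ι : ℚ) = 0 := pow_eq_zero_iff (two_ne_zero) |>.1 h6
  have h8 : Fintype.card ι ≠ 0 := Fintype.card_ne_zero
  exact h8 (by exact_mod_cast h7)

end mat

theorem even_of_skew {n : ℕ} {A : Matrix (Fin n) (Fin n) ℚ} (hA : Aᵀ = -A)
    (h : ∀ x : Fin n → ℚ, A *ᵥ x = 0 → x = 0) : Even n := by
  have hd : A.det ≠ 0 := by
    intro h0
    obtain ⟨v, hv, hv'⟩ := Matrix.exists_mulVec_eq_zero_iff.2 h0
    exact hv (h v hv')
  have h1 : A.det = (-1) ^ n * A.det := by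
    conv_lhs => rw [← Matrix.det_transpose, hA, Matrix.det_neg]
    simp
  by_contra hn
  rw [Nat.not_even_iff_odd] at hn
  rw [hn.neg_one_pow] at h1
  apply hd
  linarith

/-- A group of odd order without nonzero invariants acts on a space of even dimension. -/
theorem even_finrank {N : Type} [Group N] [Fintype N] (hN : Odd (Nat.card N)) (n : ℕ) :
    ∀ (V : Type) [AddCommGroup V] [Module ℚ V] [FiniteDimensional ℚ V] (ρ : N →* (V →ₗ[ℚ] V)),
      (∀ v, (∀ g, ρ g v = v) → v = 0) → Module.finrank ℚ V = n → Even n := by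
  induction n using Nat.strong_induction_on with
  | _ n ih =>
    intro V _ _ _ ρ hρ hn
    by_cases hn0 : n = 0
    · rw [hn0]; exact Even.zero
    haveI : Nonempty (Fin n) := ⟨⟨0, Nat.pos_of_ne_zero hn0⟩⟩
    let b : Module.Basis (Fin n) ℚ V := Module.finBasisOfFinrankEq ℚ V hn
    let G : N →* Matrix (Fin n) (Fin n) ℚ :=
      ((LinearMap.toMatrixAlgEquiv b : (V →ₗ[ℚ] V) ≃ₐ[ℚ] Matrix (Fin n) (Fin n) ℚ) :
        (V →ₗ[ℚ] V) →* Matrix (Fin n) (Fin n) ℚ).comp ρ
    have hG : ∀ (g : N) (x : V), G g *ᵥ (b.equivFun x) = b.equivFun (ρ g x) := by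
      intro g x
      exact LinearMap.toMatrix_mulVec_repr b b (ρ g) x
    obtain ⟨A, hA0, hAt, hAg⟩ := exists_alt hN G (by
      intro v hv
      have h1 : b.equivFun.symm v = 0 := by
        apply hρ
        intro g
        apply b.equivFun.injective
        rw [← hG, LinearEquiv.apply_symm_apply]
        exact hv g
      have h2 := congrArg b.equivFun h1
      rwa [LinearEquiv.apply_symm_apply, map_zero] at h2)
    let R : Submodule ℚ V := LinearMap.ker (A.mulVecLin ∘ₗ (b.equivFun : V →ₗ[ℚ] (Fin n → ℚ)))
    have hR : ∀ x : V, x ∈ R ↔ A *ᵥ (b.equivFun x) = 0 := fun x => Iff.rfl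
    have hinv : ∀ (g : N) (x : V), x ∈ R → ρ g x ∈ R := by
      intro g x hx
      rw [hR] at hx ⊢
      rw [← hG]
      have h1 : (G g⁻¹)ᵀ * (G g)ᵀ = 1 := by
        rw [← Matrix.transpose_mul, ← map_mul, mul_inv_cancel, map_one, Matrix.transpose_one]
      have h2 : A *ᵥ (G g *ᵥ b.equivFun x) =
          (G g⁻¹)ᵀ *ᵥ (((G g)ᵀ * A * G g) *ᵥ b.equivFun x) := by
        rw [mulVec_mulVec, mulVec_mulVec, ← mul_assoc, ← mul_assoc, h1, one_mul]
      rw [h2, hAg, hx, mulVec_zero]
    have hRtop : R ≠ ⊤ := by
      intro htop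
      apply hA0
      have h1 : ∀ v : Fin n → ℚ, A *ᵥ v = 0 := by
        intro v
        have h2 : b.equivFun.symm v ∈ R := by rw [htop]; exact Submodule.mem_top
        rwa [hR, LinearEquiv.apply_symm_apply] at h2
      ext i j
      have h3 := congrFun (h1 (Pi.single j 1)) i
      rw [mulVec_single_one] at h3
      exact h3
    by_cases hR0 : R = ⊥
    · apply even_of_skew hAt
      intro x hx
      have h1 : b.equivFun.symm x ∈ R := by
        rw [hR, LinearEquiv.apply_symm_apply]
        exact hx
      rw [hR0, Submodule.mem_bot] at h1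
      have h2 := congrArg b.equivFun h1
      rwa [LinearEquiv.apply_symm_apply, map_zero] at h2
    · have hlt : Module.finrank ℚ R < n := by
        rw [← hn]
        exact Submodule.finrank_lt hRtop
      have hpos : 0 < Module.finrank ℚ R := by
        haveI : Nontrivial R := Submodule.nontrivial_iff_ne_bot.2 hR0
        exact Module.finrank_pos
      have hadd := Submodule.finrank_quotient_add_finrank R
      let ρR : N →* (R →ₗ[ℚ] R) :=
        { toFun := fun g => (ρ g).restrict (hinv g)
          map_one' := by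
            ext x
            simp
          map_mul' := fun g h => by
            ext x
            simp }
      have h1 : Even (Module.finrank ℚ R) := by
        refine ih _ hlt R ρR (fun v hv => ?_) rfl
        apply Subtype.ext
        apply hρ
        intro g
        exact congrArg Subtype.val (hv g)
      let ρQ : N →* ((V ⧸ R) →ₗ[ℚ] (V ⧸ R)) :=
        { toFun := fun g => R.mapQ R (ρ g) (fun x hx => hinv g x hx)
          map_one' := by
            ext x
            simp
          map_mul' := fun g h => by
            ext x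
            simp }
      have h2 : Even (Module.finrank ℚ (V ⧸ R)) := by
        refine ih _ (by omega) (V ⧸ R) ρQ (fun v hv => ?_) rfl
        obtain ⟨x, rfl⟩ := Submodule.Quotient.mk_surjective R v
        have h3 : ∀ g, ρ g x - x ∈ R := by
          intro g
          exact (Submodule.Quotient.eq R).1 (hv g)
        have h4 : ∑ g, ρ g x = 0 := by
          apply hρ
          intro h
          rw [map_sum]
          refine Fintype.sum_equiv (Equiv.mulLeft h) _ _ fun g => ?_
          rw [Equiv.coe_mulLeft, map_mul]
          rfl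
        have h5 : ∑ g, (ρ g x - x) ∈ R := Submodule.sum_mem _ fun g _ => h3 g
        rw [Finset.sum_sub_distrib, h4, zero_sub, Finset.sum_const, neg_mem_iff] at h5
        have h6 : (Finset.univ : Finset N).card ≠ 0 := by
          rw [Finset.card_univ]
          exact Fintype.card_ne_zero
        rw [Submodule.Quotient.mk_eq_zero]
        have h7 : ((Finset.univ : Finset N).card : ℚ) • x ∈ R := by
          rw [Nat.cast_smul_eq_nsmul]
          exact h5
        exact (Submodule.smul_mem_iff R (by exact_mod_cast h6)).1 h7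
      rw [hn] at hadd
      rw [← hadd]
      exact h2.add h1

end Pool.Agent.Helper82.OD
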