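import Pool.Agent.Helper82.OD.Rk

/-!
# Project OD (helper82): the rank over a Galois extension of odd degree, if the group of the points over the
# base is finite, is even
-/

set_option autoImplicit false
set_option linter.all false

open scoped Classical

namespace Pool.Agent.Helper82.OD

open WeierstrassCurve

theorem even_pts {F K M : Type} [Field F] [Field K] [Field M] [Algebra F K] [Algebra K M] [Algebra F M]
    [IsScalarTower F K M] [FiniteDimensional K M] [IsGalois K M] (hodd : Odd (Module.finrank K M))
    (W : WeierstrassCurve F) (hfin : Finite (W.baseChange K).toAffine.Point) :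
    Even (Module.finrank ℤ (W.baseChange M).toAffine.Point) := by
  let f : (M ≃ₐ[K] M) → (M →ₐ[F] M) := fun g => (g : M →ₐ[K] M).restrictScalars F
  let ρ : (M ≃ₐ[K] M) →* AddMonoid.End (W.baseChange M).toAffine.Point :=
    { toFun := fun g => Affine.Point.map (W' := W) (f g)
      map_one' := by
        ext P
        rcases P with _ | ⟨x, y, h⟩ <;> rfl
      map_mul' := fun g h => by
        ext P
        rcases P with _ | ⟨x, y, h⟩ <;> rfl }
  haveI : Fintype (M ≃ₐ[K] M) := Fintype.ofFinite _
  have hN : Odd (Nat.card (M ≃ₐ[K] M)) := by
    rw [IsGalois.card_aut_eq_finrank]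
    exact hodd
  refine even_rank hN ρ ?_
  have hrange : {P : (W.baseChange M).toAffine.Point | ∀ g, ρ g P = P} ⊆
      Set.range (Affine.Point.map (W' := W) (IsScalarTower.toAlgHom F K M)) := by
    intro P hP
    rcases P with _ | ⟨x, y, h⟩
    · exact ⟨0, rfl⟩
    · have hx : ∀ g : M ≃ₐ[K] M, g x = x := fun g => by
        have h1 := hP g
        exact (Affine.Point.some.inj h1).1
      have hy : ∀ g : M ≃ₐ[K] M, g y = y := fun g => by
        have h1 := hP g
        exact (Affine.Point.some.inj h1).2
      obtain ⟨x', hx'⟩ := (IsGalois.mem_range_algebraMap_iff_fixed x).2 hx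
      obtain ⟨y', hy'⟩ := (IsGalois.mem_range_algebraMap_iff_fixed y).2 hy
      subst hx'
      subst hy'
      exact ⟨Affine.Point.some x' y' ((Affine.baseChange_nonsingular W
        (f := IsScalarTower.toAlgHom F K M) (algebraMap K M).injective x' y').1 h), rfl⟩
  exact (Set.finite_range _).subset hrange

end Pool.Agent.Helper82.OD
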