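import Pool.Agent.Helper82.OD.Alt

/-!
# Project OD (helper82): the rank of an abelian group with a group of odd order acting with finitely many
# fixed elements is even
-/

set_option autoImplicit false
set_option linter.all false

open TensorProduct

namespace Pool.Agent.Helper82.OD

theorem even_rank {N : Type} [Group N] [Fintype N] (hN : Odd (Nat.card N)) {A : Type} [AddCommGroup A]
    (ρ : N →* AddMonoid.End A) (hf : {a : A | ∀ g, ρ g a = a}.Finite) : Even (Module.finrank ℤ A) := by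
  by_cases h0 : Module.finrank ℤ A = 0
  · rw [h0]; exact Even.zero
  let ι : A →ₗ[ℤ] ℚ ⊗[ℤ] A := TensorProduct.mk ℤ ℚ A 1
  haveI hι : IsLocalizedModule (nonZeroDivisors ℤ) ι :=
    (isLocalizedModule_iff_isBaseChange (nonZeroDivisors ℤ) ℚ _).2 (TensorProduct.isBaseChange ℤ A ℚ)
  have e1 : Module.finrank ℤ (ℚ ⊗[ℤ] A) = Module.finrank ℤ A :=
    IsLocalizedModule.finrank_eq (nonZeroDivisors ℤ) ι le_rfl
  have e2 : Module.finrank ℚ (ℚ ⊗[ℤ] A) = Module.finrank ℤ (ℚ ⊗[ℤ] A) := by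
    unfold Module.finrank
    rw [IsLocalization.rank_eq ℚ (nonZeroDivisors ℤ) le_rfl]
  have e3 : Module.finrank ℚ (ℚ ⊗[ℤ] A) = Module.finrank ℤ A := e2.trans e1
  haveI : FiniteDimensional ℚ (ℚ ⊗[ℤ] A) := by
    apply FiniteDimensional.of_finrank_pos
    rw [e3]
    exact Nat.pos_of_ne_zero h0
  let ρV : N →* ((ℚ ⊗[ℤ] A) →ₗ[ℚ] (ℚ ⊗[ℤ] A)) :=
    { toFun := fun g => LinearMap.baseChange ℚ (ρ g).toIntLinearMap
      map_one' := by
        rw [map_one]
        ext x
        rfl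
      map_mul' := fun g h => by
        rw [map_mul]
        ext x
        rfl }
  have hρV : ∀ (g : N) (a : A), ρV g (ι a) = ι (ρ g a) := fun g a => rfl
  rw [← e3]
  refine even_finrank hN _ (ℚ ⊗[ℤ] A) ρV (fun v hv => ?_) rfl
  obtain ⟨⟨a, m⟩, ham⟩ := IsLocalizedModule.surj (nonZeroDivisors ℤ) ι v
  have ham' : ((m : ℤ)) • v = ι a := ham
  have hm0 : ((m : ℤ) : ℚ) ≠ 0 := by
    exact_mod_cast nonZeroDivisors.ne_zero m.2
  have h1 : ∀ g, ι (ρ g a) = ι a := by
    intro g
    rw [← hρV, ← ham', map_zsmul, hv]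
  have h2 : ι (∑ g, ρ g a) = (Nat.card N : ℚ) • ι a := by
    rw [map_sum]
    simp only [h1]
    rw [Finset.sum_const, Finset.card_univ, Nat.card_eq_fintype_card, Nat.cast_smul_eq_nsmul]
  have h3 : ∑ g, ρ g a ∈ {a : A | ∀ g, ρ g a = a} := by
    intro h
    rw [map_sum]
    refine Fintype.sum_equiv (Equiv.mulLeft h) _ _ fun g => ?_
    rw [Equiv.coe_mulLeft, map_mul]
    rfl
  -- the fixed elements are torsion
  let S : AddSubgroup A :=
    { carrier := {a : A | ∀ g, ρ g a = a}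
      zero_mem' := fun g => map_zero _
      add_mem' := fun {x y} hx hy g => by rw [map_add, hx g, hy g]
      neg_mem' := fun {x} hx g => by rw [map_neg, hx g] }
  haveI : Finite S := hf.to_subtype
  have h4 : (Nat.card S) • (∑ g, ρ g a) = 0 := by
    have h5 : (Nat.card S) • (⟨∑ g, ρ g a, h3⟩ : S) = 0 := card_nsmul_eq_zero'
    exact congrArg Subtype.val h5
  have h5 : (Nat.card S : ℚ) • ι (∑ g, ρ g a) = 0 := by
    rw [Nat.cast_smul_eq_nsmul, ← map_nsmul, h4, map_zero]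
  have hS : (Nat.card S : ℚ) ≠ 0 := by exact_mod_cast Nat.card_pos.ne'
  have hNc : (Nat.card N : ℚ) ≠ 0 := by exact_mod_cast Nat.card_pos.ne'
  have h6 : ι a = 0 := by
    have h7 := (smul_eq_zero.1 h5).resolve_left hS
    rw [h2] at h7
    exact (smul_eq_zero.1 h7).resolve_left hNc
  rw [h6, ← Int.cast_smul_eq_zsmul ℚ] at ham'
  exact (smul_eq_zero.1 ham').resolve_left hm0

end Pool.Agent.Helper82.OD
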