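import Pool.Agent.Helper82.PT.Cy4
import Pool.Agent.Helper82.OD.Pts

/-!
# Project OD (helper82): the root number over a Galois extension of odd degree
-/

set_option autoImplicit false
set_option linter.all false

open IsDedekindDomain NumberField
open scoped Classical

namespace Pool.Agent.Helper82.OD

open Pool.Agent.Helper82.PT.Rn
open Pool.Agent.Helper82.PT.Cy (exists_blw)
open Pool.Agent.N922.PX (IntegralAt GoodReduction SplitMultiplicative rootNumber)
open Pool.Agent.N385.PX (val_inj)

section count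

theorem card_fib {X Y : Type} [Finite X] [Finite Y] (f : X → Y)
    (h : ∀ y, Odd (Nat.card {x // f x = y})) : Nat.card X ≡ Nat.card Y [MOD 2] := by
  haveI : Fintype Y := Fintype.ofFinite Y
  have h1 : Nat.card X = ∑ y, Nat.card {x // f x = y} := by
    rw [← Nat.card_congr (Equiv.sigmaFiberEquiv f), Nat.card_sigma]
  have h2 : Nat.card Y = ∑ y : Y, 1 := by
    rw [Finset.sum_const, Finset.card_univ, smul_eq_mul, mul_one, Nat.card_eq_fintype_card]
  rw [h1, h2]
  refine Nat.ModEq.sum fun y _ => ?_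
  exact Nat.odd_iff.1 (h y)

theorem odd_orbit {N X : Type} [Group N] [MulAction N X] (hN : Odd (Nat.card N)) (x : X) :
    Odd (Nat.card (MulAction.orbit N x)) := by
  have h := Nat.card_congr (MulAction.orbitProdStabilizerEquivGroup N x)
  rw [Nat.card_prod] at h
  rw [← h] at hN
  exact (Nat.odd_mul.1 hN).1

end count

section

variable {F K M : Type} [Field F] [NumberField F] [Field K] [NumberField K] [Field M] [NumberField M]
  [Algebra F K] [Algebra K M] [Algebra F M] [IsScalarTower F K M]

theorem val_pow (v : HeightOneSpectrum (𝓞 M)) :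
    ∃ e : ℕ, e ≠ 0 ∧ ∀ x : K, v.valuation M (algebraMap K M x) = (blw K v).valuation K x ^ e := by
  haveI l1 : v.asIdeal.LiesOver (blw K v).asIdeal := ⟨rfl⟩
  haveI : FaithfulSMul (𝓞 K) (𝓞 M) := by
    rw [faithfulSMul_iff_algebraMap_injective]
    exact RingOfIntegers.algebraMap.injective K M
  haveI : Module.IsTorsionFree (𝓞 K) (𝓞 M) := inferInstance
  refine ⟨(blw K v).asIdeal.ramificationIdx' v.asIdeal,
    Ideal.IsDedekindDomain.ramificationIdx'_ne_zero_of_liesOver v.asIdeal (blw K v).ne_bot, fun x => ?_⟩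
  exact (HeightOneSpectrum.valuation_liesOver M (blw K v) v x).symm

theorem le_up (v : HeightOneSpectrum (𝓞 M)) {x : K} (h : (blw K v).valuation K x ≤ 1) :
    v.valuation M (algebraMap K M x) ≤ 1 := by
  obtain ⟨e, he, h1⟩ := val_pow (K := K) v
  rw [h1]
  exact pow_le_one₀ zero_le' h

theorem lt_up (v : HeightOneSpectrum (𝓞 M)) {x : K} (h : (blw K v).valuation K x < 1) :
    v.valuation M (algebraMap K M x) < 1 := by
  obtain ⟨e, he, h1⟩ := val_pow (K := K) v
  rw [h1]
  exact pow_lt_one₀ zero_le' h he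

theorem eq_up (v : HeightOneSpectrum (𝓞 M)) {x : K} (h : (blw K v).valuation K x = 1) :
    v.valuation M (algebraMap K M x) = 1 := by
  obtain ⟨e, he, h1⟩ := val_pow (K := K) v
  rw [h1, h, one_pow]

theorem bc_up (E : WeierstrassCurve F) (C : WeierstrassCurve.VariableChange K) :
    (C.map (algebraMap K M)) • (E.baseChange M) = (C • (E.baseChange K)).map (algebraMap K M) := by
  rw [← WeierstrassCurve.map_variableChange]
  congr 1
  rw [WeierstrassCurve.baseChange, WeierstrassCurve.baseChange, WeierstrassCurve.map_map,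
    ← IsScalarTower.algebraMap_eq]

theorem int_up (v : HeightOneSpectrum (𝓞 M)) {W : WeierstrassCurve K}
    (h : IntegralAt (blw K v) W) : IntegralAt v (W.map (algebraMap K M)) :=
  ⟨by rw [WeierstrassCurve.map_a₁]; exact le_up v h.a₁,
    by rw [WeierstrassCurve.map_a₂]; exact le_up v h.a₂,
    by rw [WeierstrassCurve.map_a₃]; exact le_up v h.a₃,
    by rw [WeierstrassCurve.map_a₄]; exact le_up v h.a₄,
    by rw [WeierstrassCurve.map_a₆]; exact le_up v h.a₆⟩

theorem good_up (E : WeierstrassCurve F) (v : HeightOneSpectrum (𝓞 M))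
    (h : GoodReduction (blw K v) (E.baseChange K)) : GoodReduction v (E.baseChange M) := by
  obtain ⟨C, h1, h2⟩ := h
  refine ⟨C.map (algebraMap K M), ?_⟩
  rw [bc_up]
  refine ⟨int_up v h1, ?_⟩
  rw [WeierstrassCurve.map_Δ]
  exact eq_up v h2

theorem split_up (E : WeierstrassCurve F) (v : HeightOneSpectrum (𝓞 M))
    (h : SplitMultiplicative (blw K v) (E.baseChange K)) :
    SplitMultiplicative v (E.baseChange M) := by
  obtain ⟨C, hI, h3, h4, h6, hb, α, hα, hα'⟩ := h
  refine ⟨C.map (algebraMap K M), ?_⟩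
  rw [bc_up]
  refine ⟨int_up v hI, ?_, ?_, ?_, ?_, algebraMap K M α, le_up v hα, ?_⟩
  · rw [WeierstrassCurve.map_a₃]; exact lt_up v h3
  · rw [WeierstrassCurve.map_a₄]; exact lt_up v h4
  · rw [WeierstrassCurve.map_a₆]; exact lt_up v h6
  · rw [WeierstrassCurve.map_b₂]; exact eq_up v hb
  · rw [WeierstrassCurve.map_a₁, WeierstrassCurve.map_a₂, ← map_pow, ← map_mul, ← map_add, ← map_sub]
    exact lt_up v hα'

/-- A prime over `u`. -/
noncomputable def abv (M : Type) [Field M] [NumberField M] [Algebra K M]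
    (u : HeightOneSpectrum (𝓞 K)) : HeightOneSpectrum (𝓞 M) := (exists_blw u).choose

theorem blw_abv (u : HeightOneSpectrum (𝓞 K)) : blw K (abv M u) = u := (exists_blw u).choose_spec

theorem conj_K [IsGalois K M] {E : WeierstrassCurve F} {w : HeightOneSpectrum (𝓞 M) → ℤ}
    (hw : LocF F M E w) {v v' : HeightOneSpectrum (𝓞 M)} (h : blw K v = blw K v') : w v' = w v := by
  obtain ⟨σ, hσ⟩ := trans_pr h
  exact hw.conj (σ.restrictScalars F) v v' hσ

theorem mem_blw_iff (v : HeightOneSpectrum (𝓞 M)) (a : 𝓞 K) :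
    a ∈ (blw K v).asIdeal ↔ v.valuation M (algebraMap K M (a : K)) < 1 := by
  rw [mem_blw, ← HeightOneSpectrum.valuation_lt_one_iff_mem (K := M)]
  rfl

/-- The system of local root numbers over `K`. -/
theorem down [IsGalois F K] [IsGalois F M] {E : WeierstrassCurve F} {w : HeightOneSpectrum (𝓞 M) → ℤ}
    (hw : LocF F M E w) : LocF F K E (fun u => w (abv M u)) := by
  haveI : IsGalois K M := IsGalois.tower_top_of_isGalois F K M
  refine ⟨fun u => hw.sign _, fun u h => hw.good _ (good_up (K := K) E _ ?_),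
    fun u h => hw.split _ (split_up (K := K) E _ ?_), ?_⟩
  · rw [blw_abv]; exact h
  · rw [blw_abv]; exact h
  · intro σ u u' h
    obtain ⟨v'', hv''⟩ := ex_act (σ.liftNormal M) (abv M u)
    have h1 : blw K v'' = u' := by
      apply HeightOneSpectrum.ext
      ext a
      rw [mem_blw_iff, hv'', AlgEquiv.liftNormal_commutes]
      obtain ⟨e, he, h2⟩ := val_pow (K := K) (abv M u)
      rw [h2, blw_abv, ← h, ← HeightOneSpectrum.valuation_lt_one_iff_mem (K := K)]
      exact pow_lt_one_iff_of_nonneg zero_le' he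
    have h2 : w (abv M u') = w v'' := conj_K (K := K) hw (by rw [h1, blw_abv])
    rw [h2]
    exact hw.conj _ _ _ hv''

theorem blw_act (σ : M ≃ₐ[K] M) (v : HeightOneSpectrum (𝓞 M)) : blw K (act σ v) = blw K v := by
  apply HeightOneSpectrum.ext
  ext a
  rw [mem_blw_iff, mem_blw_iff, act_spec, AlgEquiv.commutes]

/-- The fibre over `u` is finite with an odd number of elements. -/
theorem fib [IsGalois K M] (hodd : Odd (Module.finrank K M)) (u : HeightOneSpectrum (𝓞 K)) :
    Odd (Nat.card {v : HeightOneSpectrum (𝓞 M) // blw K v = u}) := by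
  haveI : FiniteDimensional K M := Module.Finite.of_restrictScalars_finite ℚ K M
  have hN : Odd (Nat.card (M ≃ₐ[K] M)) := by
    rw [IsGalois.card_aut_eq_finrank]
    exact hodd
  letI ma : MulAction (M ≃ₐ[K] M) (HeightOneSpectrum (𝓞 M)) :=
    { smul := fun σ v => act σ v
      one_smul := fun v => act_one v
      mul_smul := fun σ τ v => act_mul σ τ v }
  have h1 : MulAction.orbit (M ≃ₐ[K] M) (abv M u) = {v : HeightOneSpectrum (𝓞 M) | blw K v = u} := by
    ext v
    constructor
    · rintro ⟨σ, rfl⟩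
      exact (blw_act σ _).trans (blw_abv u)
    · intro hv
      have hv' : blw K (abv M u) = blw K v := (blw_abv u).trans (Set.mem_setOf_eq ▸ hv).symm
      obtain ⟨σ, hσ⟩ := trans_pr hv'
      refine ⟨σ⁻¹, ?_⟩
      exact val_inj fun x => by
        rw [hσ]
        exact (act_spec σ⁻¹ _ x).trans (by rw [inv_inv])
  have h2 := odd_orbit hN (abv M u)
  rw [h1] at h2
  exact h2

theorem fib_inf [IsGalois K M] (hodd : Odd (Module.finrank K M)) (u : InfinitePlace K) :
    Odd (Nat.card {v : InfinitePlace M // v.comap (algebraMap K M) = u}) := by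
  haveI : FiniteDimensional K M := Module.Finite.of_restrictScalars_finite ℚ K M
  have hN : Odd (Nat.card (M ≃ₐ[K] M)) := by
    rw [IsGalois.card_aut_eq_finrank]
    exact hodd
  obtain ⟨v₀, hv₀⟩ := InfinitePlace.comap_surjective (k := K) (K := M) u
  have hv₀' : v₀.comap (algebraMap K M) = u := hv₀
  have h1 : MulAction.orbit (M ≃ₐ[K] M) v₀ = {v : InfinitePlace M | v.comap (algebraMap K M) = u} := by
    ext v
    rw [InfinitePlace.mem_orbit_iff, Set.mem_setOf_eq, hv₀']
    exact eq_comm
  have h2 := odd_orbit hN v₀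
  rw [h1] at h2
  exact h2

theorem prod_eq {L : Type} [Field L] [NumberField L] {w : HeightOneSpectrum (𝓞 L) → ℤ}
    (hs : ∀ v, w v = 1 ∨ w v = -1) (hf : {v | w v ≠ 1}.Finite) :
    ∏ᶠ v, w v = (-1) ^ Nat.card {v // w v = -1} := by
  have hN : {v | w v = -1} = {v | w v ≠ 1} := by
    ext v
    simp only [Set.mem_setOf_eq]
    rcases hs v with h | h <;> rw [h] <;> decide
  have hfin : {v | w v = -1}.Finite := by rw [hN]; exact hf
  have hcard : Nat.card {v // w v = -1} = {v | w v = -1}.ncard := Nat.card_coe_set_eq _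
  rw [hcard, finprod_eq_prod_of_mulSupport_subset (s := hfin.toFinset) w ?_,
    Set.ncard_eq_toFinset_card _ hfin, Finset.prod_congr rfl (g := fun _ => (-1 : ℤ)) ?_,
    Finset.prod_const]
  · intro v hv
    exact hfin.mem_toFinset.1 hv
  · intro v hv
    rw [Set.Finite.coe_toFinset, hN]
    exact hv

theorem neg_one_pow_congr {a b : ℕ} (h : a ≡ b [MOD 2]) : (-1 : ℤ) ^ a = (-1) ^ b := by
  rw [neg_one_pow_eq_pow_mod_two, h, ← neg_one_pow_eq_pow_mod_two]

/-- The root numbers over `M` and over `K` are equal. -/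
theorem root_up [IsGalois F K] [IsGalois F M] (hodd : Odd (Module.finrank K M))
    {E : WeierstrassCurve F} {w : HeightOneSpectrum (𝓞 M) → ℤ} (hw : LocF F M E w)
    (hf : {u : HeightOneSpectrum (𝓞 K) | w (abv M u) ≠ 1}.Finite) :
    {v | w v ≠ 1}.Finite ∧ rootNumber M w = rootNumber K (fun u => w (abv M u)) := by
  haveI : IsGalois K M := IsGalois.tower_top_of_isGalois F K M
  have hKM : ∀ v, w (abv M (blw K v)) = w v := fun v =>
    conj_K (K := K) hw (by rw [blw_abv])
  have hfM : {v | w v ≠ 1}.Finite := by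
    have h1 : {v | w v ≠ 1} ⊆ ⋃ u ∈ {u : HeightOneSpectrum (𝓞 K) | w (abv M u) ≠ 1},
        {v : HeightOneSpectrum (𝓞 M) | blw K v = u} := by
      intro v hv
      simp only [Set.mem_iUnion]
      refine ⟨blw K v, ?_, rfl⟩
      rw [Set.mem_setOf_eq, hKM]
      exact hv
    refine (hf.biUnion fun u _ => ?_).subset h1
    have h2 := fib (M := M) hodd u
    have h3 : Finite ({v : HeightOneSpectrum (𝓞 M) | blw K v = u} : Set (HeightOneSpectrum (𝓞 M))) :=
      Nat.finite_of_card_ne_zero (α := {v : HeightOneSpectrum (𝓞 M) // blw K v = u}) h2.pos.ne'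
    exact Set.finite_coe_iff.1 h3
  refine ⟨hfM, ?_⟩
  unfold rootNumber
  have hs : ∀ u : HeightOneSpectrum (𝓞 K), w (abv M u) = 1 ∨ w (abv M u) = -1 := fun u => hw.sign _
  rw [prod_eq hw.sign hfM, prod_eq hs hf]
  congr 1
  · apply neg_one_pow_congr
    exact card_fib (fun v : InfinitePlace M => v.comap (algebraMap K M)) (fib_inf hodd)
  · apply neg_one_pow_congr
    haveI f1 : Finite {v // w v = -1} := by
      refine (hfM.subset fun v hv => ?_).to_subtype
      rw [Set.mem_setOf_eq, (hv : w v = -1)]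
      decide
    haveI f2 : Finite {u : HeightOneSpectrum (𝓞 K) // w (abv M u) = -1} := by
      refine (hf.subset fun v hv => ?_).to_subtype
      rw [Set.mem_setOf_eq, (hv : w (abv M v) = -1)]
      decide
    refine card_fib (fun v : {v // w v = -1} => (⟨blw K v.1, (hKM v.1).trans v.2⟩ :
      {u : HeightOneSpectrum (𝓞 K) // w (abv M u) = -1})) fun u => ?_
    have h3 := fib (M := M) hodd u.1
    have e : {x : {v // w v = -1} // (⟨blw K x.1, (hKM x.1).trans x.2⟩ :
      {u : HeightOneSpectrum (𝓞 K) // w (abv M u) = -1}) = u} ≃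
        {v : HeightOneSpectrum (𝓞 M) // blw K v = u.1} :=
      { toFun := fun x => ⟨x.1.1, congrArg Subtype.val x.2⟩
        invFun := fun v => ⟨⟨v.1, by rw [← hKM, v.2]; exact u.2⟩, Subtype.ext v.2⟩
        left_inv := fun x => rfl
        right_inv := fun v => rfl }
    rw [Nat.card_congr e]
    exact h3

end

end Pool.Agent.Helper82.OD
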